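import Pool.Agent.N162.GP.Sep

/-!
# Structure of the varieties dominated by the product of a smooth complete intersection and a curve;
abundance for all klt pairs on these varieties

Let `V` be a smooth complete intersection of dimension `n ≥ 1` and of codimension at least two in a
projective space with `K_V = O(m)`, or more generally any variety in projective `(M + 1)`-space which is
cut out by equations of degree at most `D` and has the regular canonical forms `P(x) ω₀` for all forms
`P` of degree `m` (`LowDegree`, `Pool/Agent/N162/GP/Def.lean`).
Let `C` be a smooth projective curve of any genus, and let `V × C ⇢ W` be a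
dominant rational map of finite degree to a variety `W`. It need not be related to the product
structure, and it need not be the quotient by a group. Let `d` be the number of different points of `V`
below a general fibre, i.e. the degree over `W` of the image of `V × C` in `W × V`; it is at most the
degree of `V × C ⇢ W`, which may be arbitrarily large.

**Theorem.** Let `m ≥ 7 N + 4`, `(M + 1) N < m + M + 2` and `D + N ≤ m + 2`. If
`2 d < (N + 1) (m + 2 - N)` then

* either `κ(W) ≥ dim W - 1`,
* or there is a dominant rational map `W ⇢ Z` with connected fibres to a variety `Z` of general type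
  of dimension `dim W - 1` whose general fibre is a rational curve; in this case `W` is uniruled and
  `K_W` is not pseudo-effective.

So the abundance conjecture for klt pairs holds for all klt pairs `(X, Δ)` with `X` birational to `W`,
and any boundary `Δ`, by known theorems. Let `K_X + Δ` be nef. If `κ(W) ≥ dim W - 1` then
`κ(K_X + Δ) ≥ κ(W) ≥ dim X - 1`, since `Δ ≥ 0`. If there is a fibration `X ⇢ Z` in rational curves over
a variety of general type then `κ(K_X + Δ) ≥ dim Z = dim X - 1` too, by the subadditivity of the
logarithmic Kodaira dimension over a base of general type (Campana, Fujino, Kovács and Patakfalvi), as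
`K_X + Δ` has nonnegative degree on the general fibre. And for `κ(K_X + Δ) ≥ dim X - 3` abundance is
known: the general fibre of the Iitaka fibration has dimension at most three (Lai, Gongyo and
Lehmann).

There is no condition on the irregularity: for `n ≥ 2` the variety `V` is simply connected, and
`q(W) = 0` is possible. For smooth complete intersections of the type `(d_1, ..., d_q)` in `ℙ^(n+q)` one has
`m = ∑ d_i - n - q - 1`, `D = max d_i`, `M + 1 = n + q`. With the best `N` the bound for `d` is
`(3 / 49 - o(1)) m ^ 2` if `M ≤ 5` and `max d_i ≤ 6 m / 7`.

## Proof

The trace on `W` of the product of the pullbacks of a canonical form `f` on `V` and a differential `φ`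
on `C` is a canonical form on `W`. Suppose that two generic points of `W` have the same image under the
map given by these forms. This gives linear relations between the values of the forms `f` at the at
most `2 d` points of `V` below them. The main point is that fewer than `(N + 1) (m + 2 - N)` generic
points of `V` are separated by the canonical forms (see `MP_31564d_ag.CompleteIntersections`). So the
relations are trivial: either all traces vanish, and then the curves in `W` given by the curves
`{x} × C` are rational; or the points of `V` are the same, and the image of the canonical map has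
dimension at least `dim V`. In the first case the base `Z` of the family of rational curves has a
correspondence with `V` with at most `d` points over a generic point of `Z`, and is of general type by
the same argument. The theory of the varieties dominated by `X × C` is due to helper145
(`Pool/Agent/N145/SX`).

The parts for this theorem were formalised by helper2, helper11, helper340, helper774, helper823,
helper152, helper383, helper252, helper339, helper681 and helper364, and helper145, helper123, helper221,
helper160, helper279, helper603, helper545, helper281, helper438, helper277 and helper999 (varieties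
dominated by a product with a curve), the earlier parts which are used by helper565, helper279,
helper543, helper488, helper570, helper80 and others; the assembly by helper162.
-/

set_option autoImplicit false
set_option linter.overlappingInstances false
set_option maxHeartbeats 4000000
set_option synthInstance.maxHeartbeats 400000

open FF Module Pool.Agent Pool.Agent.W602.GT Pool.Agent.N162.BC Pool.Agent.N162.GP

namespace Pool.Agent.Results.MP_e23cd6_ag.CompleteIntersectionTimesCurve

/-- `κ(W) ≥ h` for the projective variety `W` of dimension `n` with the function field `L`: for some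
`N > 0` there are `h + 1` `N`-canonical forms, regular at all prime divisors over `W`, whose ratios are
`h` algebraically independent functions. -/
def KodairaGe (L : Type) [Field L] [Algebra ℂ L] (n h : ℕ) : Prop :=
  ∃ N : ℕ, 0 < N ∧ ∃ ω : Fin (h + 1) → (Fin n → Derivation ℂ L L) → L,
    (∀ j, IsPluri N (ω j) ∧ ∀ P : Place ℂ L, Divisorial n P → RegAt P (ω j)) ∧
    ∃ D, ω 0 D ≠ 0 ∧ AlgebraicIndependent ℂ (fun i : Fin h => ω i.succ D / ω 0 D)

/-- `W` has a fibration in rational curves over a variety `Z` of general type: the function field
`Z` is algebraically closed in `L`, of transcendence degree `n - 1` (`h + 1 = n`), its Kodaira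
dimension is `n - 1`, and the generic fibre of `W ⇢ Z` is dominated by a projective line over a finite
extension of `Z`. -/
def RuledOverGeneralType (L : Type) [Field L] [Algebra ℂ L] (h : ℕ) : Prop :=
  ∃ Z : IntermediateField ℂ L, (∀ z : L, IsAlgebraic Z z → z ∈ Z) ∧ Algebra.trdeg ℂ Z = h ∧
    KodairaGe Z h h ∧ ∃ (M : Type) (_ : Field M) (_ : Algebra Z M), Algebra.IsAlgebraic Z M ∧
      Nonempty (L →ₐ[Z] RatFunc M)

theorem kodairaGe_of {L : Type} [Field L] [Algebra ℂ L] {n h : ℕ}
    (hk : KodGe ℂ L n (fun _ => False) h) : KodairaGe L n h := by
  obtain ⟨N, hN, ω, h1, h2⟩ := hk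
  exact ⟨N, hN, ω, fun j => ⟨(h1 j).1, fun P hP => (h1 j).2.2 P hP id⟩, h2⟩

/-- **Structure of the varieties dominated by `V × C`.** (1) A smooth complete intersection `V` of
dimension `n ≥ 1` of hypersurfaces of the degrees `d i ≤ D` in projective `(M + 1)`-space is cut out by
equations of degree at most `D`, and the forms of degree `m = ∑ d i - M - 2` give regular canonical
forms. (2) Let `V` be any such variety of dimension `n` in projective `(M + 1)`-space, `M ≥ 1`, and let
`m ≥ 7 N + 4`, `(M + 1) N < m + M + 2`, `D + N ≤ m + 2`. Let `K` be the function field of `V × C`, i.e. the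
compositum of the function fields `E` of `V` and `C` of a curve, of transcendence degree `n + 1`. Let
`L ⊆ K` be the function field of a variety `W` such that the extension is finite, and let
`2 d < (N + 1) (m + 2 - N)`, where `d` is the degree over `W` of the image of `V × C` in `W × V`. Then
either `κ(W) ≥ n = dim W - 1`, or `W` has a fibration in rational curves over a variety of general
type of dimension `n`. In the second case `K_W` is not pseudo-effective. -/
theorem result :
    (∀ (M n q m D : ℕ) (E : Type) [Field E] [Algebra ℂ E]
      (F : Fin q → MvPolynomial (Fin (M + 2)) ℂ) (d : Fin q → ℕ) (x : Fin (M + 2) → E),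
      SmoothCI F d x → 1 ≤ n → Algebra.trdeg ℂ E = n → n + q = M + 1 → m + M + 2 = ∑ i, d i →
      (∀ i, d i ≤ D) → 1 ≤ D → LowDegree n m D x) ∧
    ∀ (M n m D N : ℕ) (K : Type) [Field K] [Algebra ℂ K] [Algebra.EssFiniteType ℂ K]
      (E C : IntermediateField ℂ K) [IsFF ℂ C] (x : Fin (M + 2) → E),
      LowDegree n m D x → 1 ≤ M → 7 * N + 4 ≤ m → (M + 1) * N < m + M + 2 → D + N ≤ m + 2 →
      E ⊔ C = ⊤ → Algebra.trdeg ℂ K = (n + 1 : ℕ) →
      ∀ (L : Type) [Field L] [Algebra ℂ L] [Algebra L K] [IsScalarTower ℂ L K]
        [FiniteDimensional L K],
        2 * finrank L (IntermediateField.adjoin L (E : Set K)) < (N + 1) * (m + 2 - N) →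
        KodairaGe L (n + 1) n ∨
          RuledOverGeneralType L n ∧ ¬ Psef ℂ L (n + 1) (fun _ => False) := by
  refine ⟨fun M n q m D E _ _ F d x h hn hE hq hm hD hD1 =>
    lowDegree_of_smoothCI fCIC fCIA h hn hE hq hm hD hD1, ?_⟩
  intro M n m D N K _ _ _ E C _ x h hM hm hN hD hEC hK L _ _ _ _ _ hd
  haveI := ess_of_gen h.gen
  obtain ⟨z, e, hz, he⟩ := Pool.Agent.Y172.exists_crd h.dim
  have hsep := sepX_low fINX h hM hm hN hD hz he (fun _ => False)
  by_cases hk : KodGe ℂ L (n + 1) (fun _ => False) n
  · exact Or.inl (kodairaGe_of hk)
  · refine Or.inr ⟨?_, fun hp => hk ?_⟩
    · obtain ⟨Z, h1, h2, h3, h4⟩ :=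
        (N145.SX.structure_all hEC h.dim hK hz hsep hd).resolve_left hk
      exact ⟨Z, h1, h2, kodairaGe_of h3, h4⟩
    · refine ((N145.SX.dichotomy_all hEC h.dim hK hz (BX := fun _ => False)
        (B := (∅ : Set (Place ℂ C))) Set.finite_empty (BL := fun _ => False) ?_ hsep hd).out 0 1).1 hp
      refine fun P Q e _ => ⟨False.elim, fun h2 => ?_⟩
      rcases h2 with ⟨_, _, h3, -⟩ | ⟨_, h3, -⟩
      · exact h3
      · exact h3

end Pool.Agent.Results.MP_e23cd6_ag.CompleteIntersectionTimesCurve
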