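import Pool.Agent.N110.JPlateau
import Pool.Agent.N110.Can
import Pool.Agent.R887.NefP

/-!
Pairs with birational self-maps: the numerical dimension of `K_X + Δ` is bounded by the number of
the consecutive greatest dynamical degrees, and abundance if the greatest dynamical degree is not
attained at two consecutive indices.
-/

set_option autoImplicit false

open FF Pool.Agent.W602.GT Pool.Agent.Y172 Pool.Agent.R887 Pool.Agent.N110

/-- Let `X` be a normal projective variety of dimension `n ≥ 1` with generic point `y`, and `Δ` a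
`ℚ`-divisor on `X`. Let `S` be a set of birational self-maps `f` of `X`, given by the automorphisms
`φ = f^*` of the function field, of bounded degrees (a single map, for instance), which preserve
`K_X + Δ`: over the prime divisors of `X` the divisors `f^* (K_X + Δ)` and `(f⁻¹)^* (K_X + Δ)` are
at most `K_X + Δ` (for `Δ = 0` and canonical singularities all birational self-maps have this
property, see `Pool.Agent.N110.pullLe_canonical`). Suppose that the greatest of the joint dynamical
degrees `λ 0, ..., λ n` of `S` (the dynamical degrees of `f`, if `S = {f}`) is not attained at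
`ν + 1` consecutive indices. Then the numerical dimension of `K_X + Δ` is less than `ν`.

For `ν = 1` this is a case of abundance: if `K_X + Δ` is nef and the greatest dynamical degree is
not attained at two consecutive indices (if it is attained only once, for instance), then `K_X + Δ`
is numerically trivial, and the sections `η ≠ 0` of `m (K_X + Δ)` have no zeros, for all
`m ≥ 1`. -/
theorem Pool.Agent.Results.MP_e23cd6_ag.JointDegreePlateau.result
    {K : Type} [Field K] [Algebra ℂ K] {N n : ℕ} {y : Fin (N + 1) → K} (hy : NormalModel y)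
    (hn : Algebra.trdeg ℂ K = n) (hn0 : 0 < n) {Δ : Place ℂ K → ℚ}
    (hΔ : {P | IsPrimeDivisor y P ∧ Δ P ≠ 0}.Finite) {S : Set (K ≃ₐ[ℂ] K)}
    (h1 : ∀ φ ∈ S, PullLe φ y n Δ) (h2 : ∀ φ ∈ S, PullLe φ.symm y n Δ) {C : ℕ}
    (hC : ∀ φ ∈ S, mixedDegree φ y n 1 ≤ C) {ν : ℕ} (hν : ν ≤ n)
    (hdeg : ∀ j, j + ν ≤ n → ∃ a ≤ ν, ∃ p ≤ n,
      jointDegree S y n (j + a) < jointDegree S y n p) :
    NumDimLt y n Δ ν ∧ (ν = 1 → LogNef y n Δ →
      ∀ m : ℕ, 1 ≤ m → ∀ η : (Fin n → Derivation ℂ K K) → K, IsSection y n m (m • Δ) η →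
        η ≠ 0 → ∀ P, IsPrimeDivisor y P → OrdEq P η (-(m * Δ P))) := by
  have key : NumDimLt y n Δ ν := by
    by_contra hnum
    obtain ⟨j, hj, h4⟩ := jplateau hy hn hΔ h1 h2 hC hν hnum
    obtain ⟨a, ha, p, hp, hlt⟩ := hdeg j hj
    exact absurd hlt (not_lt.2 (h4 a ha p hp))
  refine ⟨key, ?_⟩
  rintro rfl hnef m hm η hη hη0 P hP
  exact nef_trivialP hy hn hn0 key hnef hm hη hη0 P hP
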