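import Pool.Agent.N133.TB.At

/-!
MP_e23cd6_ag, Q1: abundance for klt pairs `(X, Δ)` which carry (generically) stable tensor
differentials.

`NormalModel y` (`Pool/Agent/Y172/Defs.lean`): `y` is the generic point, in homogeneous coordinates,
of a normal projective variety `X` with function field `K`. `Effective y Δ`: `Δ ≥ 0` is a
`ℚ`-divisor on `X`. `LogCanonical y n Δ`: the pair `(X, Δ)` is log canonical.
`kodairaDim y n Δ`: the Kodaira dimension of `K_X + Δ`. `iitakaField y n Δ`
(`Pool/Agent/N133/OB13.lean`): the function field of the base of the Iitaka fibration of `K_X + Δ`:
the algebraic closure in `K` of the field generated by the quotients of the sections of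
`m (K_X + Δ)`, `m ≥ 1`.

A tensor differential of degree `m` is a `K`-multilinear map `T` with `m` arguments on the
derivations of `K` over `ℂ` (the rational vector fields). `IsTensor y Δ T`
(`Pool/Agent/N133/TB/Main.lean`): `T` is a (reflexive) tensor differential of the pair, that is, for
every prime divisor `P` of `X`, if the vector fields `D j` are regular along `P` and, for `j` not in
`S`, tangent to `P`, then `T D` has order at least `- |S| Δ P` along `P` (a pole of order `Δ P` is
allowed for each argument transversal to `P`; if `Δ = 0`, these are the sections of the reflexive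
hull of the `m`-th tensor power of the sheaf of differentials). `coef T E`: the coefficients
`T i (E (J 0), E (J 1), …)` of the tensors in the frame `E`, in an algebraic closure of `K`.
`act A t` (`Pool/Agent/N133/TB/Stm.lean`): the coefficients for the basis
`f j = ∑ l, A j l • e l`, if `t` are the coefficients for the basis `e`.
`StableFam t`: stability in the sense of Hilbert and Mumford: `t ≠ 0`, and if, for a basis and
integral weights `w` with sum `0`, all coefficients with negative weight `∑ s, w (J s)` vanish, then
`w = 0`. (For instance a form of degree at least `3` in `n ≥ 2` variables without multiple point is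
stable, or a family of tensors which contains one.)
-/

set_option autoImplicit false

namespace Pool.Agent.Results.MP_e23cd6_ag.TensorBochner

open FF Pool.Agent.Y172 Pool.Agent.N133.OB Pool.Agent.N133.TB

/-- Let `(X, Δ)` be a log canonical pair of dimension `n ≥ 1`, and let `T i` be finitely many tensor
differentials of the pair, of degrees `m i ≥ 1`, which are together stable at the generic point of
`X`. Then `κ = κ(K_X + Δ)` is nonnegative, the Iitaka fibration of `K_X + Δ` has a base of dimension
`κ`, and, in a suitable basis of the vector fields over an algebraic closure of the function field,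
all coefficients of all `T i` are algebraic over the function field of the base of the Iitaka
fibration: the isomorphism class of the tensors at the point `x` of `X` depends only on the image of
`x` under the Iitaka fibration, and `κ` is at least the number `Var (T)` of moduli of the tensors at
the general point of `X`. -/
theorem result {K : Type} [Field K] [Algebra ℂ K] {n N : ℕ} {y : Fin (N + 1) → K}
    (hy : NormalModel y) (hn : Algebra.trdeg ℂ K = n) (hn1 : 1 ≤ n) {Δ : Place ℂ K → ℚ}
    (hΔ : Effective y Δ) (hLC : LogCanonical y n Δ) {ι : Type} [Finite ι] {m : ι → ℕ}
    (hm : ∀ i, 1 ≤ m i) {T : (i : ι) → MultilinearMap K (fun _ : Fin (m i) => Derivation ℂ K K) K}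
    (hT : ∀ i, IsTensor y Δ (T i)) {E : Fin n → Derivation ℂ K K} (hE : LinearIndependent K E)
    (hst : StableFam (coef T E)) :
    ∃ κ : ℕ, kodairaDim y n Δ = (κ : WithBot ℕ) ∧
      Algebra.trdeg ℂ (iitakaField y n Δ) = κ ∧ κ ≤ n ∧
      ∃ A : Matrix (Fin n) (Fin n) (AlgebraicClosure K), A.det ≠ 0 ∧
        ∀ i J, IsAlgebraic (iitakaField y n Δ) (act A (coef T E) i J) :=
  tb_main t_sep' t_hm' t_desc t_at hy hn hn1 hΔ hLC hm hT hE hst

end Pool.Agent.Results.MP_e23cd6_ag.TensorBochner
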