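import Pool.Agent.N760.TW.Fin

/-!
Towers of finite multi-valued maps of pairs: abundance.
-/

set_option autoImplicit false

open FF Pool.Agent.W602.GT Pool.Agent.Y172 Pool.Agent.R887 Pool.Agent.N110 Pool.Agent.N760.TW

/-- **Abundance for pairs in towers of finite multi-valued maps.**
Let `X k`, `k = 0, 1, 2, ...`, be normal projective varieties of dimension `n ≥ 1`, with generic
points `y k` and `ℝ`-divisors `Δ k` (`(X k, Δ k)` may be a klt or lc pair). For all `k` let
`X (k + 1) ← X'' k → X k` be a finite multi-valued map: a variety `X'' k` with finite maps `p k` to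
`X (k + 1)` and `f k` to `X k`, given by the homomorphisms `ψ k` and `φ k` of the function fields,
such that `(f k)^* (K + Δ k) ≤ (p k)^* (K + Δ (k + 1))`: if the prime divisor `Q` of `X'' k` lies over
the prime divisors `P` of `X k` and `P'` of `X (k + 1)`, with ramification indices `e` and `e'`, then
`e' (1 - Δ (k + 1) P') ≤ e (1 - Δ k P)`. Let the intersection number of `n - 1` pull backs by `f k` of
hyperplane sections of `X k` and one pull back by `p k` of a hyperplane section of `X (k + 1)` be at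
most `c k deg (f k)`, let `τ k H - (K + Δ k)` and `τ k H + (K + Δ k)` be pseudo-effective, `H` being a
hyperplane section of `X k`, and suppose that the numbers `c 0 c 1 ... c (s - 1) τ s` have the lower
limit zero (for instance, the `τ s` are bounded, and the product of the `c s` is zero; for one pair
with a finite multi-valued self-map: `c < 1`). Then:

(1) `-(K + Δ k)` is pseudo-effective for all `k`.

(2) For every `k` the following are equivalent: `K + Δ k` is pseudo-effective (for instance nef);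
`K + Δ k` is numerically trivial; for all `j ≥ k` the map number `j` is crepant, that is
`(f j)^* (K + Δ j) = (p j)^* (K + Δ (j + 1))`. Then `K + Δ j` is numerically trivial for all `j ≥ k`.

(3) If a positive multiple of `K + Δ k` has a section `≠ 0` then for all `j ≥ k` a positive multiple of
`K + Δ j` is linearly equivalent to zero, and no section of a multiple `m (K + Δ k)` has zeros: `K + Δ
k` is semiample.

(4) If `K + Δ k` is pseudo-effective (for instance nef) and `X k` has irregularity zero, then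
`K + Δ k` is `ℝ`-linearly equivalent to zero, in particular semiample; if moreover the coefficients
of `Δ k` are rational, then a positive multiple of `K + Δ j` is linearly equivalent to zero for all
`j ≥ k`. -/
theorem Pool.Agent.Results.MP_e23cd6_ag.TowersOfPairs.result
    {K L : ℕ → Type} [∀ k, Field (K k)] [∀ k, Algebra ℂ (K k)]
    [∀ k, Field (L k)] [∀ k, Algebra ℂ (L k)] {N : ℕ → ℕ} {y : ∀ k, Fin (N k + 1) → K k} {n : ℕ}
    (hy : ∀ k, NormalModel (y k)) (hn : ∀ k, Algebra.trdeg ℂ (K k) = n) (hn0 : 0 < n)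
    {Δ : ∀ k, Place ℂ (K k) → ℝ} (hΔ : ∀ k, {P | IsPrimeDivisor (y k) P ∧ Δ k P ≠ 0}.Finite)
    (φ : ∀ k, K k →ₐ[ℂ] L k) (ψ : ∀ k, K (k + 1) →ₐ[ℂ] L k)
    (hψ : ∀ k, FiniteDimensional (ψ k).fieldRange (L k))
    (hlog : ∀ k, FiniteLogPullBackLe (φ k) (ψ k) (y k) (Δ k) (y (k + 1)) (Δ (k + 1)))
    (hfin : ∀ k, ∀ P' : Place ℂ (K (k + 1)), IsPrimeDivisor (y (k + 1)) P' →
      ∀ (Q : Place ℂ (L k)) (e' : ℕ), LiesOver (ψ k) Q P' e' →
        ∀ (P : Place ℂ (K k)) (e : ℕ), LiesOver (φ k) Q P e → IsPrimeDivisor (y k) P)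
    {c τ : ℕ → ℝ} (hc0 : ∀ k, 0 < c k)
    (hc : ∀ k, MultiDegreeLe (φ k) (ψ k) (y k) (y (k + 1)) (n - 1) 1 (c k))
    (hτ0 : ∀ k, 0 ≤ τ k) (hτ : ∀ k, ThresholdLe (y k) n (Δ k) (τ k))
    (hτ' : ∀ k, LowerThresholdLe (y k) n (Δ k) (τ k))
    (hlim : ∀ ε : ℝ, 0 < ε → ∀ s0 : ℕ, ∃ s, s0 ≤ s ∧ (∏ l ∈ Finset.range s, c l) * τ s < ε) :
    (∀ k, AntiPseudoEffectiveR (y k) n (Δ k)) ∧
    (∀ k, (PseudoEffectiveR (y k) n (Δ k) ↔ NumTrivialR (y k) n (Δ k)) ∧
      (PseudoEffectiveR (y k) n (Δ k) ↔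
        ∀ j, k ≤ j → CrepantOver (φ j) (ψ j) (y j) (Δ j) (Δ (j + 1))) ∧
      (PseudoEffectiveR (y k) n (Δ k) → ∀ j, k ≤ j → NumTrivialR (y j) n (Δ j))) ∧
    (∀ k, (HasSection (y k) n (Δ k) → ∀ j, k ≤ j → LinTrivial (y j) n (Δ j)) ∧
      ∀ m : ℕ, 1 ≤ m → ∀ η : (Fin n → Derivation ℂ (K k) (K k)) → K k, IsPluri m η →
        (∀ P, IsPrimeDivisor (y k) P → ∃ z : ℚ, OrdEq P η z ∧ -(m * Δ k P) ≤ (z : ℝ)) →
        ∀ P, IsPrimeDivisor (y k) P → ∀ z : ℚ, OrdEq P η z → (z : ℝ) = -(m * Δ k P)) ∧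
    ∀ k, IrregularityZero (y k) → PseudoEffectiveR (y k) n (Δ k) →
      RLinTrivial (y k) n (Δ k) ∧
      ((∀ P, IsPrimeDivisor (y k) P → ∃ a : ℚ, Δ k P = a) →
        ∀ j, k ≤ j → LinTrivial (y j) n (Δ j)) := by
  have h1 : ∀ k, AntiPseudoEffectiveR (y k) n (Δ k) := by
    intro k
    refine thresholdLe_zero (thresholdLe_of_forall fun ε hε => ?_)
    obtain ⟨s, hs⟩ := tail_small hc0 hlim k hε
    refine (tower_upper hy hn hn0 φ ψ hψ hlog hc s k (hτ0 _) (hτ _)).2.mono ?_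
    linarith
  have hup : ∀ k, PseudoEffectiveR (y k) n (Δ k) → ∀ j, k ≤ j → NumTrivialR (y j) n (Δ j) := by
    intro k hk j hj
    refine ⟨?_, h1 j⟩
    induction j, hj using Nat.le_induction with
    | base => exact hk
    | succ j hj ih =>
      exact psef_up (hy j) (hn j) hn0 (hy (j + 1)) (hn (j + 1)) (φ j) (ψ j) (hψ j) (hlog j)
        (hfin j) ih
  have hcrep : ∀ k, PseudoEffectiveR (y k) n (Δ k) →
      CrepantOver (φ k) (ψ k) (y k) (Δ k) (Δ (k + 1)) := fun k hk =>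
    crepant_of_psef (hy k) (hn k) hn0 (hy (k + 1)) (hn (k + 1)) (φ k) (ψ k) (hψ k) (hlog k) (hc k)
      hk (h1 (k + 1))
  have hdown : ∀ k, (∀ j, k ≤ j → CrepantOver (φ j) (ψ j) (y j) (Δ j) (Δ (j + 1))) →
      PseudoEffectiveR (y k) n (Δ k) := by
    intro k hk
    refine lowerThresholdLe_zero (lowerThresholdLe_of_forall fun ε hε => ?_)
    obtain ⟨s, hs⟩ := tail_small hc0 hlim k hε
    have h2 := (tower_lower (K := fun i => K (k + i)) (L := fun i => L (k + i))
      (y := fun i => y (k + i)) (Δ := fun i => Δ (k + i)) (fun i => hy (k + i))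
      (fun i => hn (k + i)) hn0 (fun i => φ (k + i)) (fun i => ψ (k + i)) (fun i => hψ (k + i))
      (fun i P hP Q e hQ P' e' hQ' => ⟨(hlog (k + i) P hP Q e hQ P' e' hQ').1,
        (hk (k + i) (Nat.le_add_right _ _) P hP Q e hQ P' e' hQ').ge⟩)
      (c := fun i => c (k + i)) (fun i => hc (k + i)) s 0 (τ := τ (k + s)) (hτ0 _) (by
        rw [Nat.zero_add]
        exact hτ' (k + s))).2
    simp only [Nat.zero_add] at h2
    refine LowerThresholdLe.mono (y := y k) (n := n) (Δ := Δ k) h2 ?_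
    linarith
  have hsec : ∀ k, HasSection (y k) n (Δ k) → ∀ j, k ≤ j → LinTrivial (y j) n (Δ j) := by
    intro k hk j hj
    have h2 : HasSection (y j) n (Δ j) := by
      induction j, hj using Nat.le_induction with
      | base => exact hk
      | succ j hj ih =>
        exact section_up (hy j) (hn j) hn0 (hy (j + 1)) (hn (j + 1)) (φ j) (ψ j) (hψ j) (hlog j)
          (hfin j) ih
    obtain ⟨m, hm, η, hη, ho⟩ := h2
    refine ⟨m, hm, η, hη, fun P hP => ?_⟩
    obtain ⟨z, hz, -⟩ := ho P hP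
    exact ⟨z, hz, no_zeros_of_anti (hy j) (hn j) hn0 (h1 j) hm hη ho P hP z hz⟩
  refine ⟨h1, fun k => ⟨⟨fun h => ⟨h, h1 k⟩, fun h => h.1⟩,
    ⟨fun h j hj => hcrep j (hup k h j hj).1, hdown k⟩, hup k⟩, fun k => ⟨hsec k,
    fun m hm η hη ho => no_zeros_of_anti (hy k) (hn k) hn0 (h1 k) hm hη ho⟩, fun k hq hk =>
    ⟨rtrivial (hy k) (hn k) hn0 hq (hΔ k) ⟨hk, h1 k⟩, fun hrat => hsec k
      (ltrivial (hy k) (hn k) hn0 hq (hΔ k) hrat ⟨hk, h1 k⟩).sec⟩⟩
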